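import Pool.Agent.H394R3.ET.Stmts

/-! Task MEAS of project ET (helper278). -/

set_option autoImplicit false

open Finset

namespace Pool.Agent.H278R3.ET

open Pool.Agent.H96R3.BC (CC)

/-- `(x+1)^(D+1) ≤ x^(D+1) + (D+1)(x+1)^D` -/
theorem pow_step (D : ℕ) (x : ℝ) (hx : 0 ≤ x) :
    (x + 1) ^ (D + 1) ≤ x ^ (D + 1) + (D + 1) * (x + 1) ^ D := by
  induction D with
  | zero => simp
  | succ D ih =>
    have h1 : x ^ (D + 1) ≤ (x + 1) ^ (D + 1) := pow_le_pow_left₀ hx (by linarith) _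
    have h2 : (x + 1) * (x + 1) ^ (D + 1) ≤ (x + 1) * (x ^ (D + 1) + (D + 1) * (x + 1) ^ D) :=
      mul_le_mul_of_nonneg_left ih (by linarith)
    push_cast
    calc (x + 1) ^ (D + 1 + 1) = (x + 1) * (x + 1) ^ (D + 1) := by ring
      _ ≤ (x + 1) * (x ^ (D + 1) + (D + 1) * (x + 1) ^ D) := h2
      _ = x ^ (D + 1 + 1) + x ^ (D + 1) + (D + 1) * (x + 1) ^ (D + 1) := by ring
      _ ≤ x ^ (D + 1 + 1) + ((D : ℝ) + 1 + 1) * (x + 1) ^ (D + 1) := by nlinarith [h1]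

theorem card_CC (Q j : ℕ) : ((CC Q j).card : ℝ) = ((j : ℝ) + 1) ^ (2 * Q) - (j : ℝ) ^ (2 * Q) := by
  unfold CC
  rw [Nat.card_Ioc, Nat.cast_sub (Nat.pow_le_pow_left (Nat.le_succ j) _)]
  push_cast
  ring

theorem taskMeas : Pool.Agent.H394R3.ET.TaskMeas := by
  intro Q hQ ε hε hε4
  obtain ⟨D, hD⟩ : ∃ D, 2 * Q = D + 1 := ⟨2 * Q - 1, by omega⟩
  obtain ⟨R₀, hR₀⟩ := exists_nat_gt (((D : ℝ) + 1) * 3 ^ D / ε + 1)
  refine ⟨R₀, ?_⟩
  intro R hR P hP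
  rw [hD] at hP ⊢
  have hRr : ((D : ℝ) + 1) * 3 ^ D / ε + 1 < R := lt_of_lt_of_le hR₀ (by exact_mod_cast hR)
  have hfrac : 0 ≤ ((D : ℝ) + 1) * 3 ^ D / ε := by positivity
  have hR1 : (1 : ℝ) < R := by linarith
  have hRpos : (0 : ℝ) < R := by linarith
  -- the last index
  have hex : ∃ J, R ≤ J ∧ J ^ (D + 1) ≤ 2 * R ^ (D + 1) ∧ 2 * R ^ (D + 1) < (J + 1) ^ (D + 1) := by
    let pr : ℕ → Prop := fun m => 2 * R ^ (D + 1) < (m + 1) ^ (D + 1)
    have hpr : ∃ m, pr m := by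
      refine ⟨2 * R ^ (D + 1), ?_⟩
      show 2 * R ^ (D + 1) < (2 * R ^ (D + 1) + 1) ^ (D + 1)
      calc 2 * R ^ (D + 1) < 2 * R ^ (D + 1) + 1 := Nat.lt_succ_self _
        _ ≤ (2 * R ^ (D + 1) + 1) ^ (D + 1) := Nat.le_self_pow (by omega) _
    classical
    let J := Nat.find hpr
    have hJ : pr J := Nat.find_spec hpr
    have hRJ : R ≤ J := by
      by_contra hlt
      push Not at hlt
      have h1 : (J + 1) ^ (D + 1) ≤ R ^ (D + 1) := Nat.pow_le_pow_left (by omega) _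
      have h2 : 2 * R ^ (D + 1) < (J + 1) ^ (D + 1) := hJ
      omega
    refine ⟨J, hRJ, ?_, hJ⟩
    by_cases hJ0 : J = 0
    · rw [hJ0]; simp
    · obtain ⟨m, hm⟩ := Nat.exists_eq_succ_of_ne_zero hJ0
      have h3 : ¬ pr m := Nat.find_min hpr (by show m < J; omega)
      have h4 : ¬ (2 * R ^ (D + 1) < (m + 1) ^ (D + 1)) := h3
      rw [hm]
      show (m + 1) ^ (D + 1) ≤ 2 * R ^ (D + 1)
      omega
  obtain ⟨J₁, hRJ₁, hJ₁, hJ₁'⟩ := hex
  have hJ₁r : (J₁ : ℝ) ^ (D + 1) ≤ 2 * (R : ℝ) ^ (D + 1) := by exact_mod_cast hJ₁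
  have hJ₁r' : 2 * (R : ℝ) ^ (D + 1) < ((J₁ : ℝ) + 1) ^ (D + 1) := by exact_mod_cast hJ₁'
  have hRJ₁r : (R : ℝ) ≤ J₁ := by exact_mod_cast hRJ₁
  -- length of the cells
  let L : ℕ → ℝ := fun J => ((J : ℝ) + 1) ^ (D + 1) - (J : ℝ) ^ (D + 1)
  have hL0 : ∀ J, 0 ≤ L J := fun J => sub_nonneg.2 (pow_le_pow_left₀ (Nat.cast_nonneg J) (by linarith) _)
  have hcard : ∀ J, ((CC Q J).card : ℝ) = L J := by
    intro J
    rw [card_CC, hD]
  -- the cover
  let I : ℕ → Set ℝ := fun J => Set.Icc ((J : ℝ) ^ (D + 1)) ((J : ℝ) ^ (D + 1) + ε * L J) ∪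
    Set.Icc (((J : ℝ) + 1) ^ (D + 1) - ε * L J) (((J : ℝ) + 1) ^ (D + 1))
  have hcover : {x : ℝ | (R : ℝ) ^ (D + 1) ≤ x ∧ x ≤ 2 * (R : ℝ) ^ (D + 1) ∧ P x ≤ 0} ⊆
      (⋃ J ∈ Finset.Ico R J₁, I J) ∪ Set.Icc ((J₁ : ℝ) ^ (D + 1)) (2 * (R : ℝ) ^ (D + 1)) := by
    rintro x ⟨hx1, hx2, hx3⟩
    by_cases hxJ : (J₁ : ℝ) ^ (D + 1) ≤ x
    · right; exact ⟨hxJ, hx2⟩
    · left
      push Not at hxJ
      -- find the cell
      classical
      have hpr : ∃ m : ℕ, x < ((m : ℝ) + 1) ^ (D + 1) := by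
        refine ⟨J₁, lt_of_lt_of_le hxJ ?_⟩
        exact pow_le_pow_left₀ (Nat.cast_nonneg J₁) (by linarith) _
      let J := Nat.find hpr
      have hJ : x < ((J : ℝ) + 1) ^ (D + 1) := Nat.find_spec hpr
      have hRJ : R ≤ J := by
        by_contra hlt
        push Not at hlt
        have h1 : ((J : ℝ) + 1) ^ (D + 1) ≤ (R : ℝ) ^ (D + 1) := by
          apply pow_le_pow_left₀ (by positivity)
          exact_mod_cast hlt
        linarith
      have hJlow : (J : ℝ) ^ (D + 1) ≤ x := by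
        by_cases hJ0 : J = 0
        · rw [hJ0]
          have : (0 : ℝ) ≤ (R : ℝ) ^ (D + 1) := by positivity
          simp
          linarith
        · obtain ⟨m, hm⟩ := Nat.exists_eq_succ_of_ne_zero hJ0
          have h3 : ¬ (x < ((m : ℝ) + 1) ^ (D + 1)) := Nat.find_min hpr (by show m < J; omega)
          rw [hm]
          push_cast
          exact not_lt.1 h3
      have hJJ₁ : J < J₁ := by
        by_contra hge
        push Not at hge
        have h1 : (J₁ : ℝ) ^ (D + 1) ≤ (J : ℝ) ^ (D + 1) := by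
          apply pow_le_pow_left₀ (by positivity)
          exact_mod_cast hge
        linarith
      have hcomplete : (J + 1) ^ (D + 1) ≤ 2 * R ^ (D + 1) :=
        le_trans (Nat.pow_le_pow_left (by omega) _) hJ₁
      have hPJ := hP J hRJ hcomplete x
      rw [hcard] at hPJ
      refine Set.mem_biUnion (Finset.mem_coe.2 (Finset.mem_Ico.2 ⟨hRJ, hJJ₁⟩)) ?_
      by_cases h1 : (J : ℝ) ^ (D + 1) + ε * L J ≤ x
      · by_cases h2 : x ≤ ((J : ℝ) + 1) ^ (D + 1) - ε * L J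
        · exact absurd (hPJ h1 h2) (not_lt.2 hx3)
        · right
          push Not at h2
          exact ⟨h2.le, hJ.le⟩
      · left
        push Not at h1
        exact ⟨hJlow, h1.le⟩
  have hIvol : ∀ J, MeasureTheory.volume (I J) ≤ ENNReal.ofReal (2 * ε * L J) := by
    intro J
    refine (MeasureTheory.measure_union_le _ _).trans ?_
    rw [Real.volume_Icc, Real.volume_Icc, ← ENNReal.ofReal_add]
    · apply ENNReal.ofReal_le_ofReal
      apply le_of_eq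
      ring
    · have := mul_nonneg hε.le (hL0 J)
      linarith
    · have := mul_nonneg hε.le (hL0 J)
      linarith
  have hsum : ∑ J ∈ Finset.Ico R J₁, L J = (J₁ : ℝ) ^ (D + 1) - (R : ℝ) ^ (D + 1) := by
    have := Finset.sum_Ico_sub (fun J : ℕ => (J : ℝ) ^ (D + 1)) hRJ₁
    rw [← this]
    apply Finset.sum_congr rfl
    intro J _
    show ((J : ℝ) + 1) ^ (D + 1) - (J : ℝ) ^ (D + 1) = ((J + 1 : ℕ) : ℝ) ^ (D + 1) - (J : ℝ) ^ (D + 1)
    push_cast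
    ring
  -- the last incomplete cell
  have hlast : 2 * (R : ℝ) ^ (D + 1) - (J₁ : ℝ) ^ (D + 1) ≤ ε * (R : ℝ) ^ (D + 1) := by
    have h1 : ((J₁ : ℝ) + 1) ^ (D + 1) ≤ (J₁ : ℝ) ^ (D + 1) + (D + 1) * ((J₁ : ℝ) + 1) ^ D :=
      pow_step D J₁ (Nat.cast_nonneg _)
    have h2 : (J₁ : ℝ) ≤ 2 * R := by
      by_contra hgt
      push Not at hgt
      have h3 : (2 * (R : ℝ)) ^ (D + 1) < (J₁ : ℝ) ^ (D + 1) := pow_lt_pow_left₀ hgt (by positivity) (by omega)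
      have h4 : 2 * (R : ℝ) ^ (D + 1) ≤ (2 * (R : ℝ)) ^ (D + 1) := by
        rw [mul_pow]
        have : (2 : ℝ) ≤ 2 ^ (D + 1) := by
          calc (2 : ℝ) = 2 ^ 1 := (pow_one _).symm
            _ ≤ 2 ^ (D + 1) := pow_le_pow_right₀ (by norm_num) (by omega)
        exact mul_le_mul_of_nonneg_right this (by positivity)
      linarith
    have h3 : (J₁ : ℝ) + 1 ≤ 3 * R := by linarith
    have h4 : ((J₁ : ℝ) + 1) ^ D ≤ (3 * (R : ℝ)) ^ D := pow_le_pow_left₀ (by positivity) h3 _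
    have h5 : ((D : ℝ) + 1) * ((J₁ : ℝ) + 1) ^ D ≤ ((D : ℝ) + 1) * (3 * (R : ℝ)) ^ D :=
      mul_le_mul_of_nonneg_left h4 (by positivity)
    have h6 : ((D : ℝ) + 1) * 3 ^ D ≤ ε * R := by
      have h7 : ((D : ℝ) + 1) * 3 ^ D / ε ≤ R := by linarith
      rw [div_le_iff₀ hε] at h7
      linarith
    have h7 : ((D : ℝ) + 1) * (3 * (R : ℝ)) ^ D ≤ ε * (R : ℝ) ^ (D + 1) := by
      calc ((D : ℝ) + 1) * (3 * (R : ℝ)) ^ D = (((D : ℝ) + 1) * 3 ^ D) * (R : ℝ) ^ D := by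
            rw [mul_pow]; ring
        _ ≤ (ε * R) * (R : ℝ) ^ D := mul_le_mul_of_nonneg_right h6 (by positivity)
        _ = ε * (R : ℝ) ^ (D + 1) := by ring
    linarith
  calc MeasureTheory.volume {x : ℝ | (R : ℝ) ^ (D + 1) ≤ x ∧ x ≤ 2 * (R : ℝ) ^ (D + 1) ∧ P x ≤ 0}
      ≤ MeasureTheory.volume ((⋃ J ∈ Finset.Ico R J₁, I J) ∪
          Set.Icc ((J₁ : ℝ) ^ (D + 1)) (2 * (R : ℝ) ^ (D + 1))) := MeasureTheory.measure_mono hcover
    _ ≤ MeasureTheory.volume (⋃ J ∈ Finset.Ico R J₁, I J) +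
          MeasureTheory.volume (Set.Icc ((J₁ : ℝ) ^ (D + 1)) (2 * (R : ℝ) ^ (D + 1))) :=
        MeasureTheory.measure_union_le _ _
    _ ≤ (∑ J ∈ Finset.Ico R J₁, MeasureTheory.volume (I J)) +
          ENNReal.ofReal (2 * (R : ℝ) ^ (D + 1) - (J₁ : ℝ) ^ (D + 1)) := by
        rw [Real.volume_Icc]
        exact add_le_add (MeasureTheory.measure_biUnion_finset_le _ _) le_rfl
    _ ≤ (∑ J ∈ Finset.Ico R J₁, ENNReal.ofReal (2 * ε * L J)) +
          ENNReal.ofReal (2 * (R : ℝ) ^ (D + 1) - (J₁ : ℝ) ^ (D + 1)) :=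
        add_le_add (Finset.sum_le_sum fun J _ => hIvol J) le_rfl
    _ = ENNReal.ofReal (∑ J ∈ Finset.Ico R J₁, 2 * ε * L J) +
          ENNReal.ofReal (2 * (R : ℝ) ^ (D + 1) - (J₁ : ℝ) ^ (D + 1)) := by
        rw [ENNReal.ofReal_sum_of_nonneg]
        intro J _
        have := hL0 J
        positivity
    _ = ENNReal.ofReal ((∑ J ∈ Finset.Ico R J₁, 2 * ε * L J) +
          (2 * (R : ℝ) ^ (D + 1) - (J₁ : ℝ) ^ (D + 1))) := by
        rw [ENNReal.ofReal_add]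
        · exact Finset.sum_nonneg fun J _ => by
            have := hL0 J
            positivity
        · linarith
    _ ≤ ENNReal.ofReal (3 * ε * (R : ℝ) ^ (D + 1)) := by
        apply ENNReal.ofReal_le_ofReal
        rw [← Finset.mul_sum, hsum]
        have h1 : 2 * ε * ((J₁ : ℝ) ^ (D + 1) - (R : ℝ) ^ (D + 1)) ≤ 2 * ε * (R : ℝ) ^ (D + 1) :=
          mul_le_mul_of_nonneg_left (by linarith) (by positivity)
        linarith

end Pool.Agent.H278R3.ET
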